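import Mathlib
import Pool.Agent.H307R3.RO.Fin

/-!
# Reductive operators that are algebraic, modulo the compact operators, over quasi-normal elements of
their bicommutant are normal (MP_49c4d9_an)

Let every closed invariant subspace of `T` be reducing.  If `T ^ n + Z_{n-1} T ^ {n-1} + ... + Z_0` is
compact, where every `Z_j` commutes with all operators commuting with `T` and is quasi-similar to a normal
operator, then `T` is normal.
-/

set_option autoImplicit false

namespace Pool.Agent.Results.MP_49c4d9_an.AlgebraicModCompact

universe u v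

/-- Let `T` be a reductive operator on a complex Hilbert space (every closed invariant subspace is
reducing).  Let `Z 0, ..., Z (n-1)` be operators in the bicommutant of `T` such that each `Z j` satisfies
`X (Z j) = N X` and `(Z j) Y = Y N` for some normal operator `N` (on some Hilbert space), some injective
`X` and some `Y` with dense range (for instance `Z j` quasi-similar, or similar, to a normal operator, or a
scalar).  If `T ^ n + ∑ j, Z j * T ^ j` is compact, then `T` is normal. -/
theorem result {H : Type u} [NormedAddCommGroup H] [InnerProductSpace ℂ H] [CompleteSpace H]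
    (T : H →L[ℂ] H)
    (hred : ∀ M : Submodule ℂ H, IsClosed (M : Set H) → (∀ x ∈ M, T x ∈ M) →
      ∀ x ∈ M, ContinuousLinearMap.adjoint T x ∈ M)
    (n : ℕ) (Z : Fin n → (H →L[ℂ] H))
    (hZ : ∀ j, ∀ S : H →L[ℂ] H, Commute S T → Commute S (Z j))
    (hqs : ∀ j, ∃ (K : Type v) (_ : NormedAddCommGroup K) (_ : InnerProductSpace ℂ K)
      (_ : CompleteSpace K) (N : K →L[ℂ] K) (X : H →L[ℂ] K) (Y : K →L[ℂ] H), IsStarNormal N ∧
      Function.Injective X ∧ DenseRange Y ∧ X.comp (Z j) = N.comp X ∧ (Z j).comp Y = Y.comp N)
    (hK : IsCompactOperator (T ^ n + ∑ j : Fin n, Z j * T ^ (j : ℕ) : H →L[ℂ] H)) :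
    IsStarNormal T :=
  H307R3.RO.main T hred n Z hZ hqs hK

end Pool.Agent.Results.MP_49c4d9_an.AlgebraicModCompact
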