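import Pool.Agent.H158I.RW.R1

set_option autoImplicit false
open scoped ComplexConjugate InnerProductSpace Topology
open Filter NormedSpace

namespace Pool.Agent.Results.MP_49c4d9_an.LyapunovSplitting

open Pool.Agent.H712R5.BO Pool.Agent.H270R3.CT

variable {H : Type} [NormedAddCommGroup H] [InnerProductSpace ℂ H] [CompleteSpace H]

/-- every closed invariant subspace of `T` is reducing -/
def Reductive (T : H →L[ℂ] H) : Prop :=
  ∀ V : Submodule ℂ H, IsClosed (V : Set H) → (∀ x ∈ V, T x ∈ V) → ∀ x ∈ V, (star T) x ∈ V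

/-- `(1/k) log |exp (k T)|²` -/
noncomputable def Lyap (k : ℕ) (T : H →L[ℂ] H) : H →L[ℂ] H :=
  (1 / (k : ℝ)) • CFC.log (star (exp ((k : ℂ) • T)) * exp ((k : ℂ) • T))

theorem star_comm {A T : H →L[ℂ] H} (h : Commute A (star T)) : Commute (star A) T := by
  have := h.star_star
  rwa [star_star] at this

theorem comm_Lyap {A T : H →L[ℂ] H} (k : ℕ) (h1 : Commute A T) (h2 : Commute A (star T)) :
    Commute A (Lyap k T) := by
  have c1 : Commute A ((k : ℂ) • T) := h1.smul_right _
  have c2 : Commute A (exp ((k : ℂ) • T)) := c1.exp_right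
  have c3 : Commute A (star (exp ((k : ℂ) • T))) := by
    rw [star_exp, star_smul]
    exact (h2.smul_right _).exp_right
  have c4 : Commute (star (exp ((k : ℂ) • T)) * exp ((k : ℂ) • T)) A := (c3.mul_right c2).symm
  have c5 : Commute (CFC.log (star (exp ((k : ℂ) • T)) * exp ((k : ℂ) • T))) A :=
    c4.cfc_real Real.log
  exact c5.symm.smul_right _

theorem Lyap_sub {T N : H →L[ℂ] H} (k : ℕ) (hk : 1 ≤ k) (h1 : Commute N T)
    (h2 : Commute N (star T)) (h3 : Commute N (star N)) :
    Lyap k (T - N) = Lyap k T - (N + star N) := by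
  let _ : NormedAlgebra ℚ (H →L[ℂ] H) := .restrictScalars ℚ ℂ (H →L[ℂ] H)
  obtain ⟨hs, -, he⟩ := C12_exp t_B4v T k hk
  change IsSelfAdjoint (Lyap k T) at hs
  change star (exp ((k : ℂ) • T)) * exp ((k : ℂ) • T) = exp ((k : ℝ) • Lyap k T) at he
  set Y := Lyap k T with hY
  have hNY : Commute N Y := comm_Lyap k h1 h2
  have hNsT : Commute (star N) T := star_comm h2
  have hNsTs : Commute (star N) (star T) := h1.star_star
  have hNsY : Commute (star N) Y := comm_Lyap k hNsT hNsTs
  have ek : ∀ Z : H →L[ℂ] H, (k : ℂ) • Z = k • Z := fun Z => Nat.cast_smul_eq_nsmul ℂ k Z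
  have er : ∀ Z : H →L[ℂ] H, (k : ℝ) • Z = k • Z := fun Z => Nat.cast_smul_eq_nsmul ℝ k Z
  have hkp : (0 : ℝ) < k := by exact_mod_cast (by omega : 0 < k)
  have e1 : exp ((k : ℂ) • (T - N)) = exp ((k : ℂ) • T) * exp (-(k • N)) := by
    rw [← NormedSpace.exp_add_of_commute]
    · congr 1
      rw [smul_sub, ek N, sub_eq_add_neg]
    · rw [ek T]
      exact ((h1.symm.smul_left k).smul_right k).neg_right
  have e2 : star (exp (-(k • N))) = exp (-(k • star N)) := by
    rw [star_exp, star_neg, star_nsmul]
  have e3 : star (exp ((k : ℂ) • (T - N))) * exp ((k : ℂ) • (T - N)) =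
      exp ((k : ℝ) • (Y - (N + star N))) := by
    rw [e1, star_mul, e2]
    have e4 : exp (-(k • star N)) * star (exp ((k : ℂ) • T)) * (exp ((k : ℂ) • T) * exp (-(k • N)))
        = exp (-(k • star N)) * (star (exp ((k : ℂ) • T)) * exp ((k : ℂ) • T)) *
          exp (-(k • N)) := by
      simp only [mul_assoc]
    rw [e4, he, er Y]
    have c1 : Commute (-(k • star N)) (k • Y) := ((hNsY.smul_left k).smul_right k).neg_left
    have c2 : Commute (-(k • star N) + k • Y) (-(k • N)) := by
      apply Commute.add_left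
      · exact (((h3.symm.smul_left k).smul_right k).neg_left).neg_right
      · exact ((hNY.symm.smul_left k).smul_right k).neg_right
    rw [← NormedSpace.exp_add_of_commute c1, ← NormedSpace.exp_add_of_commute c2]
    congr 1
    rw [er, smul_sub, smul_add]
    abel
  have hsa : IsSelfAdjoint ((k : ℝ) • (Y - (N + star N))) := by
    apply IsSelfAdjoint.smul (IsSelfAdjoint.all _)
    apply hs.sub
    change star (N + star N) = N + star N
    rw [star_add, star_star, add_comm]
  unfold Lyap
  rw [e3, CFC.log_exp _ hsa, smul_smul, one_div, inv_mul_cancel₀ hkp.ne', one_smul]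

theorem Lyap_normal {T : H →L[ℂ] H} (k : ℕ) (hk : 1 ≤ k) (h : Commute T (star T)) :
    Lyap k T = T + star T := by
  have h1 := Lyap_sub k hk (Commute.refl T) h h
  have h2 : Lyap k (T - T) = 0 := by
    unfold Lyap
    rw [sub_self, smul_zero, exp_zero, star_one, one_mul, CFC.log_one, smul_zero]
  rw [h2] at h1
  exact (sub_eq_zero.1 h1.symm)

theorem key {T : H →L[ℂ] H} (hT : Reductive T) {k : ℕ → ℕ} (hk : StrictMono k)
    (hk1 : ∀ i, 1 ≤ k i) {X : H →L[ℂ] H}
    (hX : ∀ v, Tendsto (fun i => Lyap (k i) T v) atTop (𝓝 (X v))) :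
    IsSelfAdjoint X ∧ Commute X T ∧ Commute X (star T) := by
  have h1 := Pool.Agent.H158I.RW.t_R1 H T k hk hk1 X hX hT
  have hYs : ∀ i, IsSelfAdjoint (Lyap (k i) T) := fun i => (C12_exp t_B4v T (k i) (hk1 i)).1
  have hYn : ∀ i, ‖Lyap (k i) T‖ ≤ 2 * ‖T‖ := fun i => (C12_exp t_B4v T (k i) (hk1 i)).2.1
  exact ⟨(t_C10 H (fun i => Lyap (k i) T) X (2 * ‖T‖) hYn hYs hX).1, h1.1, h1.2⟩

theorem result {T : H →L[ℂ] H} (hT : Reductive T) {k : ℕ → ℕ} (hk : StrictMono k)
    (hk1 : ∀ i, 1 ≤ k i) {X X' : H →L[ℂ] H}
    (hX : ∀ v, Tendsto (fun i => Lyap (k i) T v) atTop (𝓝 (X v)))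
    (hX' : ∀ v, Tendsto (fun i => Lyap (k i) (-Complex.I • T) v) atTop (𝓝 (X' v))) :
    IsSelfAdjoint X ∧ IsSelfAdjoint X' ∧ X * X' = X' * X ∧
    ∃ N Q : H →L[ℂ] H, N = (1 / 2 : ℂ) • (X + Complex.I • X') ∧ T = N + Q ∧
      IsStarNormal N ∧ N * T = T * N ∧ N * star T = star T * N ∧
      (∀ v, Tendsto (fun i => Lyap (k i) Q v) atTop (𝓝 0)) ∧
      (∀ v, Tendsto (fun i => Lyap (k i) (-Complex.I • Q) v) atTop (𝓝 0)) ∧
      (IsStarNormal T ↔ Q = 0) := by
  obtain ⟨hXs, hXT, hXTs⟩ := key hT hk hk1 hX
  have hT' : Reductive (-Complex.I • T) := by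
    intro V hV hVT x hx
    have h1 : ∀ x ∈ V, T x ∈ V := by
      intro x hx
      have h2 := V.smul_mem Complex.I (hVT x hx)
      have h3 : Complex.I • ((-Complex.I • T) x) = T x := by
        rw [ContinuousLinearMap.smul_apply, smul_smul, mul_neg, Complex.I_mul_I, neg_neg, one_smul]
      rwa [h3] at h2
    have h2 := hT V hV h1 x hx
    rw [star_smul]
    exact V.smul_mem _ h2
  obtain ⟨hXs', hXT', hXTs'⟩ := key hT' hk hk1 hX'
  have e0 : ∀ Z : H →L[ℂ] H, Complex.I • (-Complex.I • Z) = Z := by
    intro Z
    rw [smul_smul, mul_neg, Complex.I_mul_I, neg_neg, one_smul]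
  have hX'T : Commute X' T := by
    have := hXT'.smul_right Complex.I
    rwa [e0] at this
  have hX'Ts : Commute X' (star T) := by
    have := star_comm (A := T) (T := X') (by rw [hXs'.star_eq]; exact hX'T.symm)
    exact this.symm
  have hXX : X * X' = X' * X := by
    have hc : ∀ i, Commute X (Lyap (k i) (-Complex.I • T)) := by
      intro i
      apply comm_Lyap
      · exact hXT.smul_right _
      · rw [star_smul]
        exact hXTs.smul_right _
    ext v
    have l1 : Tendsto (fun i => X (Lyap (k i) (-Complex.I • T) v)) atTop (𝓝 (X (X' v))) :=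
      (X.continuous.tendsto _).comp (hX' v)
    have l2 := hX' (X v)
    have l3 : (fun i => X (Lyap (k i) (-Complex.I • T) v)) =
        fun i => Lyap (k i) (-Complex.I • T) (X v) := by
      funext i
      exact congrArg (fun Z : H →L[ℂ] H => Z v) (hc i).eq
    rw [l3] at l1
    exact tendsto_nhds_unique l1 l2
  set N : H →L[ℂ] H := (1 / 2 : ℂ) • (X + Complex.I • X') with hN
  have hstarN : star N = (1 / 2 : ℂ) • (X - Complex.I • X') := by
    rw [hN, star_smul, star_add, star_smul, hXs.star_eq, hXs'.star_eq]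
    simp only [one_div, star_inv₀, Complex.star_def, Complex.conj_I, Complex.conj_ofNat, neg_smul,
      ← sub_eq_add_neg]
  have hNT : Commute N T := (hXT.add_left (hX'T.smul_left _)).smul_left _
  have hNTs : Commute N (star T) := (hXTs.add_left (hX'Ts.smul_left _)).smul_left _
  have cXX : Commute X X' := hXX
  have hNN : Commute N (star N) := by
    rw [hstarN, hN]
    apply Commute.smul_left
    apply Commute.smul_right
    apply Commute.add_left
    · exact (Commute.refl X).sub_right (cXX.smul_right _)
    · exact ((cXX.symm.smul_left _).sub_right (((Commute.refl X').smul_left _).smul_right _))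
  have hsum : N + star N = X := by
    rw [hstarN, hN, ← smul_add]
    have : X + Complex.I • X' + (X - Complex.I • X') = (2 : ℂ) • X := by
      rw [two_smul]
      abel
    rw [this, smul_smul]
    norm_num
  have hsum' : -Complex.I • N + star (-Complex.I • N) = X' := by
    rw [star_smul, hstarN, hN]
    have e1 : star (-Complex.I) = Complex.I := by simp
    rw [e1, smul_comm (-Complex.I), smul_comm Complex.I, ← smul_add]
    have : -Complex.I • (X + Complex.I • X') + Complex.I • (X - Complex.I • X') =
        (2 : ℂ) • X' := by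
      rw [smul_add, smul_sub, smul_smul, smul_smul, neg_mul, Complex.I_mul_I, neg_neg, neg_smul,
        neg_smul, one_smul, two_smul]
      abel
    rw [this, smul_smul]
    norm_num
  refine ⟨hXs, hXs', hXX, N, T - N, rfl, by abel, ⟨hNN.symm⟩, hNT, hNTs, ?_, ?_, ?_⟩
  · intro v
    have h1 := (hX v).sub_const (X v)
    rw [sub_self] at h1
    refine h1.congr fun i => ?_
    rw [Lyap_sub (k i) (hk1 i) hNT hNTs hNN, hsum]
    rfl
  · intro v
    have h1 := (hX' v).sub_const (X' v)
    rw [sub_self] at h1
    refine h1.congr fun i => ?_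
    have c1 : Commute (-Complex.I • N) (-Complex.I • T) := (hNT.smul_left _).smul_right _
    have c2 : Commute (-Complex.I • N) (star (-Complex.I • T)) := by
      rw [star_smul]
      exact (hNTs.smul_left _).smul_right _
    have c3 : Commute (-Complex.I • N) (star (-Complex.I • N)) := by
      rw [star_smul]
      exact (hNN.smul_left _).smul_right _
    rw [smul_sub, Lyap_sub (k i) (hk1 i) c1 c2 c3, hsum']
    rfl
  · constructor
    · intro hn
      have hc : Commute T (star T) := hn.star_comm_self.symm
      have h1 : X = T + star T := by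
        ext v
        have h2 := hX v
        have h3 : (fun i => Lyap (k i) T v) = fun _ => (T + star T) v := by
          funext i
          rw [Lyap_normal (k i) (hk1 i) hc]
        rw [h3] at h2
        exact tendsto_nhds_unique h2 tendsto_const_nhds
      have hc' : Commute (-Complex.I • T) (star (-Complex.I • T)) := by
        rw [star_smul]
        exact (hc.smul_left _).smul_right _
      have h1' : X' = -Complex.I • T + star (-Complex.I • T) := by
        ext v
        have h2 := hX' v
        have h3 : (fun i => Lyap (k i) (-Complex.I • T) v) =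
            fun _ => (-Complex.I • T + star (-Complex.I • T)) v := by
          funext i
          rw [Lyap_normal (k i) (hk1 i) hc']
        rw [h3] at h2
        exact tendsto_nhds_unique h2 tendsto_const_nhds
      have e1 : star (-Complex.I) = Complex.I := by simp
      rw [sub_eq_zero, hN, h1, h1', star_smul, e1]
      rw [smul_add Complex.I, smul_smul, smul_smul, mul_neg, Complex.I_mul_I, neg_neg, one_smul,
        neg_one_smul]
      have : T + star T + (T + -star T) = (2 : ℂ) • T := by
        rw [two_smul]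
        abel
      rw [this, smul_smul]
      norm_num
    · intro h0
      have : T = N := sub_eq_zero.1 h0
      rw [this]
      exact ⟨hNN.symm⟩

end Pool.Agent.Results.MP_49c4d9_an.LyapunovSplitting
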