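import Pool.Agent.H270R3.CT.RW
import Pool.Agent.H270R3.CT.RW0
import Pool.Agent.H606RW.R5
import Pool.Agent.H181R5.RW.R8
import Pool.Agent.H537R3.RW.R7
import Pool.Agent.H158I.RW.R1
import Pool.Agent.H581R3.RWR6

/-!
# Reductive weighted translation operators are normal (MP_49c4d9_an)

Let `S` be an invertible ergodic measure-preserving transformation of a probability space `(X, μ)` (countably
generated σ-algebra) and `φ` a bounded measurable function with `log |φ|` integrable.  If every closed
invariant subspace of the operator `T f = φ · (f ∘ S)` on `L²(μ)` reduces `T`, then `T` is normal.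

For `φ(x) = x` and `S` an irrational rotation this is Bishop's operator.

Idea of the proof.  If `|φ| ∘ S^n = |φ|` for some `n ≥ 1`, then `T` is similar to a multiple of a unitary.
Otherwise, for almost every `θ` the strong limit `Y θ` of `(1/k) log |exp (k e^{2πiθ} r T)|²` exists (along a
subsequence), and `θ ↦ Y θ` is not almost everywhere equal to one scalar.  The spectral subspaces of `Y θ`
are separated by invariant subspaces of `T`; if `T` is reductive, `Y θ` commutes with `T` and `T*`, hence
with `|φ|² ∘ S^k` for all `k`, and then covariance and ergodicity make `Y θ` a constant scalar: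
a contradiction.
-/

set_option autoImplicit false
open MeasureTheory

namespace Pool.Agent.Results.MP_49c4d9_an.ReductiveTranslations

/-- the Hilbert space `L²(μ)` -/
abbrev L2 {X : Type} [MeasurableSpace X] (μ : Measure X) : Type := Lp ℂ 2 μ

/-- the bounded operators on `L²(μ)` -/
abbrev Op {X : Type} [MeasurableSpace X] (μ : Measure X) : Type := L2 μ →L[ℂ] L2 μ

/-- every closed invariant subspace of `T` is invariant under the adjoint of `T` -/
def IsReductive {H : Type} [NormedAddCommGroup H] [InnerProductSpace ℂ H] [CompleteSpace H]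
    (T : H →L[ℂ] H) : Prop :=
  ∀ V : Submodule ℂ H, IsClosed (V : Set H) → (∀ f ∈ V, T f ∈ V) → ∀ f ∈ V, (star T) f ∈ V

/-- the same for operators on `L²(μ)` -/
def Reductive {X : Type} [MeasurableSpace X] {μ : Measure X} (T : Op μ) : Prop := IsReductive T

/-- `T` commutes with its adjoint -/
def Normal {X : Type} [MeasurableSpace X] {μ : Measure X} (T : Op μ) : Prop := IsStarNormal T

/-- `T f (x) = φ(x) f(Sx)` -/
def IsWeightedTranslation {X : Type} [MeasurableSpace X] {μ : Measure X}
    (φ : X → ℂ) (S : X → X) (T : Op μ) : Prop :=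
  ∀ f : L2 μ, (T f : X → ℂ) =ᵐ[μ] fun x => φ x * (f : X → ℂ) (S x)

theorem result (X : Type) [MeasurableSpace X] [MeasurableSpace.CountablyGenerated X]
    (μ : Measure X) [IsProbabilityMeasure μ] (S : X ≃ᵐ X) (hS : Ergodic S μ)
    (φ : X → ℂ) (hφ : Measurable φ) (hb : ∃ R : ℝ, ∀ x, ‖φ x‖ ≤ R)
    (hi : Integrable (fun x => Real.log ‖φ x‖) μ)
    (T : Op μ) (hT : IsWeightedTranslation φ S T) (hr : Reductive T) : Normal T := by
  obtain ⟨R, hR⟩ := hb
  exact Pool.Agent.H270R3.CT.t_RW0 (Pool.Agent.H270R3.CT.t_RW Pool.Agent.H158I.RW.t_R1 Pool.Agent.H270R3.CT.taskR5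
    Pool.Agent.H581R3.RWR6.r6 Pool.Agent.H537R3.RW.taskR7 Pool.Agent.H181R5.RW.t_R8) X μ S hS φ R hφ hR hi T hT hr

end Pool.Agent.Results.MP_49c4d9_an.ReductiveTranslations
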