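import Mathlib
import Pool.Agent.H888R3.RA.Pair4
import Pool.Agent.H541R3.HI.Fin

/-!
# MP_49c4d9_an: reductive algebras with two generators

Q1 asks whether a reductive algebra generated by ONE operator is self-adjoint. For TWO operators
`X`, `Y` the answer is no, even if `Y` is self-adjoint, `X` is similar to a self-adjoint operator
and `p(X) = 0` for a polynomial `p` of degree three (one operator with either property is normal
as soon as it is reductive).

Start from an operator `T` on a separable Hilbert space whose commutant is transitive (frozen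
statement S04754, proved by helper541 from the starting development `H270R2/TA`). Choose a sequence
`A n` of contractions of the commutant without common invariant subspaces. On `ℓ²(ℕ; H)` let
`Y = S + S*`, `S` the unilateral shift, and
`X x = (x 0, x 1 / 2, c 0 A 0 (x 1), c 1 A 1 (x 1), ...)` with numbers `c n > 0`. Then `2 X² - X` is
the projection onto the coordinate `0`, so a closed subspace invariant under `X` and `Y` is
`ℓ²(ℕ; L)` with `L` invariant under every `A n`.
-/

set_option autoImplicit false

open scoped InnerProductSpace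

namespace Pool.Agent.Results.MP_49c4d9_an.TwoGenerators

/-- `A` belongs to the closure, in the weak operator topology, of the algebra generated by `X`,
`Y` and the identity. -/
def InWeaklyClosedAlgebra {H : Type} [NormedAddCommGroup H] [InnerProductSpace ℂ H]
    (X Y A : H →L[ℂ] H) : Prop :=
  ∀ (F : Finset (H × H)) (ε : ℝ), 0 < ε →
    ∃ S ∈ Algebra.adjoin ℂ ({X, Y} : Set (H →L[ℂ] H)), ∀ p ∈ F, ‖⟪(A - S) p.1, p.2⟫_ℂ‖ < ε

/-- `K` is invariant under `A`. -/
def Invariant {H : Type} [NormedAddCommGroup H] [InnerProductSpace ℂ H]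
    (A : H →L[ℂ] H) (K : Submodule ℂ H) : Prop := ∀ v ∈ K, A v ∈ K

/-- The closed subspaces invariant under both `X` and `Y` are `0` and the whole space. -/
def Transitive {H : Type} [NormedAddCommGroup H] [InnerProductSpace ℂ H]
    (X Y : H →L[ℂ] H) : Prop :=
  ∀ K : Submodule ℂ H, IsClosed (K : Set H) → Invariant X K → Invariant Y K → K = ⊥ ∨ K = ⊤

/-- `X` is similar to a self-adjoint operator `D`, by `1 + N` with inverse `1 - N`. -/
def Similar {H : Type} [NormedAddCommGroup H] [InnerProductSpace ℂ H] [CompleteSpace H]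
    (X : H →L[ℂ] H) : Prop :=
  ∃ D N : H →L[ℂ] H, IsSelfAdjoint D ∧ N * N = 0 ∧ X = (1 + N) * D * (1 - N)

/-- `p(X) = 0` for `p = z (z - 1) (2 z - 1)`. -/
def Algebraic {H : Type} [NormedAddCommGroup H] [InnerProductSpace ℂ H]
    (X : H →L[ℂ] H) : Prop :=
  X * (X - 1) * ((2 : ℂ) • X - 1) = 0

/-- An operator that is not a scalar commutes with `X` and with `Y`. -/
def Commutant {H : Type} [NormedAddCommGroup H] [InnerProductSpace ℂ H]
    (X Y : H →L[ℂ] H) : Prop :=
  ∃ T : H →L[ℂ] H, (∀ c : ℂ, T ≠ c • (1 : H →L[ℂ] H)) ∧ T * X = X * T ∧ T * Y = Y * T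

/-- Two operators, `Y` self-adjoint, `X` algebraic and similar to a self-adjoint operator, whose
common invariant subspaces are trivial (so that the weakly closed algebra they generate is
reductive), but such that this algebra does not contain `X*`. -/
theorem result : ∃ (H : Type) (_ : NormedAddCommGroup H) (_ : InnerProductSpace ℂ H)
    (_ : CompleteSpace H) (_ : TopologicalSpace.SeparableSpace H) (X Y : H →L[ℂ] H),
    IsSelfAdjoint Y ∧ Similar X ∧ Algebraic X ∧ Transitive X Y ∧
    ¬ InWeaklyClosedAlgebra X Y (star X) ∧ Commutant X Y := by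
  obtain ⟨T, hT, htr⟩ := Pool.Agent.H541R3.HI.exists_op
  have hsep : TopologicalSpace.SeparableSpace Pool.Agent.H270T.H :=
    Pool.Agent.H541R3.HI.separable_H
  have hns : ∀ c : ℂ, T ≠ c • (1 : Pool.Agent.H270T.H →L[ℂ] Pool.Agent.H270T.H) := by
    intro c hc
    apply hT
    rw [hc, ← ContinuousLinearMap.star_eq_adjoint, star_smul, star_one, smul_mul_smul_comm,
      smul_mul_smul_comm, mul_comm c]
  obtain ⟨D, N, X, Y, T', h1, h2, h3, h4, h5, h6, h7, h8, h9, h10⟩ :=
    Pool.Agent.H888R3.RA.main T hns (fun L hL h => htr L hL (fun A hA => h A hA.symm))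
  exact ⟨Pool.Agent.H888R3.RA.L2 Pool.Agent.H270T.H, inferInstance, inferInstance, inferInstance,
    Pool.Agent.H888R3.RA.separable_L2, X, Y, h2, ⟨D, N, h1, h3, h4⟩, h5, h6, h7, T', h8, h9, h10⟩

end Pool.Agent.Results.MP_49c4d9_an.TwoGenerators
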